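import Mathlib

/-! Cyclotomic norms and periodic solutions of `a x (i+1) - b x i = y0 + g t i`. -/

set_option autoImplicit false

namespace Pool.Agent.H904.CC

open Polynomial Finset

/-- The polynomial with the coefficients `t 0, …, t (d-1)`. -/
noncomputable def tp (t : ℕ → ℤ) (d : ℕ) : ℤ[X] := ∑ i ∈ range d, C (t i) * X ^ i

/-- The value of the homogenised polynomial. -/
noncomputable def hom (f : ℤ[X]) (a b : ℤ) : ℤ :=
  ∑ k ∈ range (f.natDegree + 1), f.coeff k * a ^ k * b ^ (f.natDegree - k)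

theorem hom_eq {S : Type*} [CommRing S] (f : ℤ[X]) (a b : ℤ) (u : S) (h : (a : S) = u * b) :
    ((hom f a b : ℤ) : S) = (b : S) ^ f.natDegree * aeval u f := by
  rw [hom, aeval_eq_sum_range, Finset.mul_sum]
  push_cast
  refine Finset.sum_congr rfl fun k hk => ?_
  have hk' : k ≤ f.natDegree := by simpa [Nat.lt_succ_iff] using hk
  obtain ⟨r, hr⟩ := Nat.exists_eq_add_of_le hk'
  rw [hr, Nat.add_sub_cancel_left, h, mul_pow, pow_add, zsmul_eq_mul]
  ring

theorem coprime_hom (f : ℤ[X]) (hf : f.Monic) (a b : ℤ) (hab : IsCoprime a b) :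
    IsCoprime (hom f a b) b := by
  rw [hom, Finset.sum_range_succ, Nat.sub_self, pow_zero, mul_one, hf.coeff_natDegree, one_mul]
  obtain ⟨K, hK⟩ : b ∣ ∑ k ∈ range f.natDegree, f.coeff k * a ^ k * b ^ (f.natDegree - k) := by
    refine Finset.dvd_sum fun k hk => Dvd.dvd.mul_left ?_ _
    exact dvd_pow_self b (Nat.sub_ne_zero_of_lt (by simpa using hk))
  rw [hK, add_comm]
  exact (hab.pow_left).add_mul_left_left K

theorem aeval_tp {S : Type*} [CommRing S] (t : ℕ → ℤ) (d : ℕ) (u : S) :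
    aeval u (tp t d) = ∑ i ∈ range d, (t i : S) * u ^ i := by
  simp [tp, map_sum]

theorem natDegree_tp (t : ℕ → ℤ) (d : ℕ) : (tp t d).natDegree ≤ d := by
  refine natDegree_sum_le_of_forall_le _ _ fun i hi => ?_
  refine (natDegree_C_mul_X_pow_le _ _).trans (by simpa using (mem_range.1 hi).le)

/-- The norm of `t (ζ_e)`. -/
noncomputable def nrm (e : ℕ) (t : ℕ → ℤ) (d : ℕ) : ℤ :=
  resultant (cyclotomic e ℤ) (tp t d) (cyclotomic e ℤ).natDegree d

theorem key {S : Type*} [CommRing S] (e d : ℕ) (he : 2 ≤ e) (hed : e ∣ d) (hd : 0 < d) (a b g : ℤ)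
    (x t : ℕ → ℤ) (y0 : ℤ) (hx : x d = x 0)
    (hy : ∀ i < d, a * x (i + 1) - b * x i = y0 + g * t i)
    (hM0 : ((hom (cyclotomic e ℤ) a b : ℤ) : S) = 0) (s : S) (hsb : s * (b : S) = 1) :
    ((g * nrm e t d : ℤ) : S) = 0 := by
  obtain ⟨u, hu⟩ : ∃ u : S, u = (a : S) * s := ⟨_, rfl⟩
  have hau : (a : S) = u * b := by rw [hu, mul_assoc, hsb, mul_one]
  have hbu : IsUnit (b : S) := IsUnit.of_mul_eq_one_right _ hsb
  have hc0 : aeval u (cyclotomic e ℤ) = 0 := by
    have h1 := hom_eq (cyclotomic e ℤ) a b u hau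
    rw [hM0] at h1
    exact ((hbu.pow _).mul_right_eq_zero.1 h1.symm)
  have hud : u ^ d = 1 := by
    have h1 : cyclotomic e ℤ ∣ X ^ d - 1 := by
      rw [← prod_cyclotomic_eq_X_pow_sub_one hd]
      exact Finset.dvd_prod_of_mem _ (Nat.mem_divisors.2 ⟨hed, hd.ne'⟩)
    obtain ⟨q, hq⟩ := h1
    have := congrArg (aeval u) hq
    rw [map_mul, hc0, zero_mul] at this
    simpa [sub_eq_zero] using this
  have huu : IsUnit u := IsUnit.of_pow_eq_one hud hd.ne'
  have hgeom : ∑ i ∈ range d, u ^ i = 0 := by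
    have h1 : cyclotomic e ℤ ∣ ∑ i ∈ range d, X ^ i := by
      rw [← prod_cyclotomic_eq_geom_sum hd]
      exact Finset.dvd_prod_of_mem _ (Finset.mem_erase.2 ⟨by omega, Nat.mem_divisors.2 ⟨hed, hd.ne'⟩⟩)
    obtain ⟨q, hq⟩ := h1
    have := congrArg (aeval u) hq
    rw [map_mul, hc0, zero_mul] at this
    simpa using this
  -- the sum of the right-hand sides
  have hsum : ∑ i ∈ range d, ((y0 : S) + g * t i) * u ^ (i + 1) = 0 := by
    have h1 : ∀ i ∈ range d, ((y0 : S) + g * t i) * u ^ (i + 1) =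
        a * ((x (i + 1) : S) * u ^ (i + 1)) - b * u * ((x i : S) * u ^ i) := by
      intro i hi
      have := congrArg (Int.cast : ℤ → S) (hy i (mem_range.1 hi))
      push_cast at this
      rw [← this]; ring
    rw [Finset.sum_congr rfl h1, Finset.sum_sub_distrib, ← Finset.mul_sum, ← Finset.mul_sum]
    have h2 : ∑ i ∈ range d, ((x (i + 1) : S) * u ^ (i + 1)) = ∑ i ∈ range d, ((x i : S) * u ^ i) := by
      have h3 := Finset.sum_range_succ (fun i => (x i : S) * u ^ i) d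
      have h4 := Finset.sum_range_succ' (fun i => (x i : S) * u ^ i) d
      rw [h3] at h4
      simp only [hx, hud, pow_zero] at h4
      exact (add_right_cancel h4).symm
    rw [h2, hau]
    ring
  have hg0 : (g : S) * aeval u (tp t d) = 0 := by
    have h1 : u * ((y0 : S) * ∑ i ∈ range d, u ^ i + g * ∑ i ∈ range d, (t i : S) * u ^ i) = 0 := by
      rw [← hsum, Finset.mul_sum, Finset.mul_sum, ← Finset.sum_add_distrib, Finset.mul_sum]
      refine Finset.sum_congr rfl fun i _ => ?_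
      ring
    have h2 := huu.mul_right_eq_zero.1 h1
    rw [hgeom, mul_zero, zero_add] at h2
    rw [aeval_tp]; exact h2
  obtain ⟨p, q, -, -, hpq⟩ := exists_mul_add_mul_eq_C_resultant (m := (cyclotomic e ℤ).natDegree)
    (n := d) (cyclotomic e ℤ) (tp t d) le_rfl (natDegree_tp t d) (Or.inr hd.ne')
  have h5 := congrArg (aeval u) hpq
  rw [map_add, map_mul, map_mul, hc0, zero_mul, zero_add] at h5
  have h7 : aeval u (C (nrm e t d)) = ((nrm e t d : ℤ) : S) := by simp
  push_cast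
  rw [← h7]
  change (g : S) * aeval u (C (resultant (cyclotomic e ℤ) (tp t d) _ d)) = 0
  rw [← h5, ← mul_assoc, hg0, zero_mul]

theorem dvd_mul_nrm (e d : ℕ) (he : 2 ≤ e) (hed : e ∣ d) (hd : 0 < d) (a b g : ℤ)
    (hab : IsCoprime a b) (x t : ℕ → ℤ) (y0 : ℤ) (hx : x d = x 0)
    (hy : ∀ i < d, a * x (i + 1) - b * x i = y0 + g * t i) :
    hom (cyclotomic e ℤ) a b ∣ g * nrm e t d := by
  have hM0 : ((hom (cyclotomic e ℤ) a b : ℤ) : ZMod (hom (cyclotomic e ℤ) a b).natAbs) = 0 := by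
    rw [ZMod.intCast_zmod_eq_zero_iff_dvd]; exact Int.natAbs_dvd.2 dvd_rfl
  obtain ⟨r, s, hrs⟩ := coprime_hom (cyclotomic e ℤ) (cyclotomic.monic e ℤ) a b hab
  have hsb : (s : ZMod (hom (cyclotomic e ℤ) a b).natAbs) * (b : ZMod _) = 1 := by
    have := congrArg (Int.cast : ℤ → ZMod (hom (cyclotomic e ℤ) a b).natAbs) hrs
    rw [Int.cast_add, Int.cast_mul, Int.cast_mul, hM0, mul_zero, zero_add, Int.cast_one] at this
    exact this
  have := key e d he hed hd a b g x t y0 hx hy hM0 _ hsb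
  rw [ZMod.intCast_zmod_eq_zero_iff_dvd] at this
  exact Int.natAbs_dvd.1 this

end Pool.Agent.H904.CC
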