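import Mathlib
import Pool.Agent.H904.CC.Cyc

/-! Bounds for cyclotomic norms. -/

set_option autoImplicit false

namespace Pool.Agent.H904.CC

open Polynomial Finset

theorem nrm_eq (e : ℕ) (he : 0 < e) (t : ℕ → ℤ) (d : ℕ) :
    ((nrm e t d : ℤ) : ℂ) = ∏ ζ ∈ primitiveRoots e ℂ, ∑ i ∈ range d, (t i : ℂ) * ζ ^ i := by
  have : NeZero ((e : ℕ) : ℂ) := ⟨by exact_mod_cast he.ne'⟩
  have h1 : ((nrm e t d : ℤ) : ℂ) = resultant ((cyclotomic e ℤ).map (Int.castRingHom ℂ))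
      ((tp t d).map (Int.castRingHom ℂ)) (cyclotomic e ℤ).natDegree d := by
    rw [resultant_map_map]; rfl
  rw [h1, map_cyclotomic, natDegree_cyclotomic, ← natDegree_cyclotomic e ℂ,
    resultant_eq_prod_eval _ _ _ ((natDegree_map_le).trans (natDegree_tp t d))
      (IsAlgClosed.splits _), (cyclotomic.monic e ℂ).leadingCoeff, one_pow, one_mul,
    cyclotomic.roots_eq_primitiveRoots_val]
  refine Finset.prod_congr rfl fun ζ _ => ?_
  rw [eval_map, tp, eval₂_finsetSum]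
  refine Finset.sum_congr rfl fun i _ => ?_
  rw [eval₂_mul, eval₂_C, eval₂_pow, eval₂_X, eq_intCast]

theorem hom_eq_prod (e : ℕ) (he : 0 < e) (a b : ℤ) (hb : b ≠ 0) :
    ((hom (cyclotomic e ℤ) a b : ℤ) : ℂ) = ∏ ζ ∈ primitiveRoots e ℂ, ((a : ℂ) - b * ζ) := by
  have hb' : (b : ℂ) ≠ 0 := by exact_mod_cast hb
  have hprim := Complex.isPrimitiveRoot_exp e he.ne'
  rw [hom_eq (cyclotomic e ℤ) a b ((a : ℂ) / b) (by field_simp), aeval_def, ← eval_map,
    algebraMap_int_eq, map_cyclotomic, cyclotomic_eq_prod_X_sub_primitiveRoots hprim,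
    eval_prod, natDegree_cyclotomic, ← hprim.card_primitiveRoots, ← Finset.prod_const,
    ← Finset.prod_mul_distrib]
  refine Finset.prod_congr rfl fun ζ _ => ?_
  simp only [eval_sub, eval_X, eval_C]
  field_simp

theorem norm_prim (e : ℕ) (he : 0 < e) (ζ : ℂ) (hζ : ζ ∈ primitiveRoots e ℂ) :
    ζ.re ^ 2 + ζ.im ^ 2 = 1 := by
  have h := (isPrimitiveRoot_of_mem_primitiveRoots hζ).norm'_eq_one he.ne'
  have h2 : Complex.normSq ζ = 1 := by rw [Complex.normSq_eq_norm_sq, h]; norm_num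
  rw [Complex.normSq_apply] at h2
  nlinarith

theorem lower (e : ℕ) (he : 2 < e) (a b : ℤ) (ha : 0 < a) (hb : 0 < b) :
    ((a * b : ℤ) : ℝ) ^ e.totient ≤ ((hom (cyclotomic e ℤ) a b : ℤ) : ℝ) ^ 2 := by
  have he0 : 0 < e := by omega
  have hprim := Complex.isPrimitiveRoot_exp e he0.ne'
  have h1 : ((hom (cyclotomic e ℤ) a b : ℤ) : ℝ) ^ 2 =
      ∏ ζ ∈ primitiveRoots e ℂ, Complex.normSq ((a : ℂ) - b * ζ) := by
    rw [← map_prod, ← hom_eq_prod e he0 a b hb.ne']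
    rw [show ((hom (cyclotomic e ℤ) a b : ℤ) : ℂ) = (((hom (cyclotomic e ℤ) a b : ℤ) : ℝ) : ℂ) by
      push_cast; rfl, Complex.normSq_ofReal]
    ring
  have h2 : ∏ ζ ∈ primitiveRoots e ℂ, Complex.normSq ((1 : ℂ) - ζ) =
      ((eval 1 (cyclotomic e ℤ) : ℤ) : ℝ) ^ 2 := by
    rw [← map_prod]
    have h3 : ∏ ζ ∈ primitiveRoots e ℂ, ((1 : ℂ) - ζ) = ((eval 1 (cyclotomic e ℤ) : ℤ) : ℂ) := by
      have h4 : ((eval 1 (cyclotomic e ℤ) : ℤ) : ℂ) = eval 1 (cyclotomic e ℂ) := by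
        rw [← map_cyclotomic_int e ℂ, eval_one_map]; rfl
      rw [h4, cyclotomic_eq_prod_X_sub_primitiveRoots hprim, eval_prod]
      simp
    rw [h3, show ((eval 1 (cyclotomic e ℤ) : ℤ) : ℂ) = (((eval 1 (cyclotomic e ℤ) : ℤ) : ℝ) : ℂ) by
      push_cast; rfl, Complex.normSq_ofReal]
    ring
  have h5 : (1 : ℝ) ≤ ((eval 1 (cyclotomic e ℤ) : ℤ) : ℝ) ^ 2 := by
    have h6 : 0 < eval 1 (cyclotomic e ℤ) := cyclotomic_pos he 1
    have h7 : (1 : ℝ) ≤ ((eval 1 (cyclotomic e ℤ) : ℤ) : ℝ) := by exact_mod_cast h6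
    nlinarith
  have hab : (0 : ℝ) ≤ ((a * b : ℤ) : ℝ) := by exact_mod_cast (mul_pos ha hb).le
  rw [h1]
  calc ((a * b : ℤ) : ℝ) ^ e.totient ≤ ((a * b : ℤ) : ℝ) ^ e.totient *
        ∏ ζ ∈ primitiveRoots e ℂ, Complex.normSq ((1 : ℂ) - ζ) := by
        rw [h2]; exact le_mul_of_one_le_right (pow_nonneg hab _) h5
    _ = ∏ ζ ∈ primitiveRoots e ℂ, (((a * b : ℤ) : ℝ) * Complex.normSq ((1 : ℂ) - ζ)) := by
        rw [Finset.prod_mul_distrib, Finset.prod_const, hprim.card_primitiveRoots]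
    _ ≤ _ := by
        refine Finset.prod_le_prod (fun ζ _ => mul_nonneg hab (Complex.normSq_nonneg _))
          fun ζ hζ => ?_
        have h8 := norm_prim e he0 ζ hζ
        rw [Complex.normSq_apply, Complex.normSq_apply]
        simp only [Complex.sub_re, Complex.sub_im, Complex.one_re, Complex.one_im,
          Complex.intCast_re, Complex.intCast_im, Complex.mul_re, Complex.mul_im]
        push_cast
        have h9 : ((a : ℝ) - (b * ζ.re - 0 * ζ.im)) * (a - (b * ζ.re - 0 * ζ.im)) +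
            (0 - (b * ζ.im + 0 * ζ.re)) * (0 - (b * ζ.im + 0 * ζ.re)) -
            a * b * ((1 - ζ.re) * (1 - ζ.re) + (0 - ζ.im) * (0 - ζ.im)) = ((a : ℝ) - b) ^ 2 := by
          linear_combination ((b : ℝ) ^ 2 - a * b) * h8
        nlinarith [sq_nonneg ((a : ℝ) - b)]

theorem parseval (d : ℕ) (hd : 0 < d) (τ : ℕ → ℝ) (ω : ℂ) (hω : IsPrimitiveRoot ω d) :
    ∑ j ∈ range d, Complex.normSq (∑ i ∈ range d, (τ i : ℂ) * (ω ^ j) ^ i) =
      d * ∑ i ∈ range d, τ i ^ 2 := by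
  have hω0 : ω ≠ 0 := hω.ne_zero hd.ne'
  have hn : ‖ω‖ = 1 := hω.norm'_eq_one hd.ne'
  have hconj : (starRingEnd ℂ) ω = ω⁻¹ := (Complex.inv_eq_conj hn).symm
  have key : ∀ i ∈ range d, ∀ k ∈ range d,
      ∑ j ∈ range d, (ω ^ i * (ω⁻¹) ^ k) ^ j = if i = k then (d : ℂ) else 0 := by
    intro i hi k hk
    split_ifs with h
    · subst h
      rw [← mul_pow, mul_inv_cancel₀ hω0, one_pow]; simp
    · have h1 : ω ^ i * (ω⁻¹) ^ k ≠ 1 := by
        intro h2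
        apply h
        rw [inv_pow, mul_inv_eq_one₀ (pow_ne_zero _ hω0)] at h2
        exact hω.pow_inj (mem_range.1 hi) (mem_range.1 hk) h2
      have h3 : (ω ^ i * (ω⁻¹) ^ k) ^ d = 1 := by
        rw [mul_pow, ← pow_mul, ← pow_mul, mul_comm i d, mul_comm k d, pow_mul, pow_mul, inv_pow,
          hω.pow_eq_one]
        simp
      have h4 := geom_sum_eq h1 d
      rw [h4, h3, sub_self, zero_div]
  have hC : ((∑ j ∈ range d, Complex.normSq (∑ i ∈ range d, (τ i : ℂ) * (ω ^ j) ^ i) : ℝ) : ℂ) =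
      ((d * ∑ i ∈ range d, τ i ^ 2 : ℝ) : ℂ) := by
    push_cast
    have h1 : ∀ j ∈ range d, (Complex.normSq (∑ i ∈ range d, (τ i : ℂ) * (ω ^ j) ^ i) : ℂ) =
        ∑ i ∈ range d, ∑ k ∈ range d, (τ i : ℂ) * τ k * (ω ^ i * (ω⁻¹) ^ k) ^ j := by
      intro j _
      rw [← Complex.mul_conj, map_sum, Finset.sum_mul_sum]
      refine Finset.sum_congr rfl fun i _ => Finset.sum_congr rfl fun k _ => ?_
      rw [map_mul, map_pow, map_pow, hconj, Complex.conj_ofReal, mul_pow, ← pow_mul, ← pow_mul,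
        ← pow_mul, ← pow_mul, mul_comm j i, mul_comm j k]
      ring
    rw [Finset.sum_congr rfl h1, Finset.sum_comm, Finset.mul_sum]
    refine Finset.sum_congr rfl fun i hi => ?_
    rw [Finset.sum_comm]
    have h2 : ∀ k ∈ range d, ∑ j ∈ range d, (τ i : ℂ) * τ k * (ω ^ i * (ω⁻¹) ^ k) ^ j =
        if i = k then (τ i : ℂ) * τ k * d else 0 := by
      intro k hk
      rw [← Finset.mul_sum, key i hi k hk]
      split_ifs <;> simp
    rw [Finset.sum_congr rfl h2, Finset.sum_ite_eq]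
    simp only [hi, if_true]
    ring
  exact_mod_cast hC

theorem sum_prim_le (e d : ℕ) (_he : 0 < e) (hed : e ∣ d) (hd : 0 < d) (τ : ℕ → ℝ) :
    ∑ ζ ∈ primitiveRoots e ℂ, Complex.normSq (∑ i ∈ range d, (τ i : ℂ) * ζ ^ i) ≤
      d * ∑ i ∈ range d, τ i ^ 2 := by
  have hω := Complex.isPrimitiveRoot_exp d hd.ne'
  set ω := Complex.exp (2 * Real.pi * Complex.I / d) with hωd
  rw [← parseval d hd τ ω hω]
  have hinj : Set.InjOn (fun j => ω ^ j) (range d : Set ℕ) := by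
    intro i hi j hj hij
    exact hω.pow_inj (by simpa using hi) (by simpa using hj) hij
  rw [← Finset.sum_image (f := fun z : ℂ => Complex.normSq (∑ i ∈ range d, (τ i : ℂ) * z ^ i)) hinj]
  refine Finset.sum_le_sum_of_subset_of_nonneg ?_ fun _ _ _ => Complex.normSq_nonneg _
  intro ζ hζ
  have h1 : ζ ^ d = 1 := by
    obtain ⟨k, hk⟩ := hed
    rw [hk, pow_mul, (isPrimitiveRoot_of_mem_primitiveRoots hζ).pow_eq_one, one_pow]
  have : NeZero d := ⟨hd.ne'⟩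
  obtain ⟨j, hj, hj'⟩ := hω.eq_pow_of_pow_eq_one h1
  exact Finset.mem_image.2 ⟨j, mem_range.2 hj, hj'⟩

theorem prod_le_pow {ι : Type*} (s : Finset ι) (hs : s.Nonempty) (z : ι → ℝ) (hz : ∀ i ∈ s, 0 ≤ z i)
    (B : ℝ) (hB : ∑ i ∈ s, z i ≤ B) : ∏ i ∈ s, z i ≤ (B / s.card) ^ s.card := by
  have hc : (0 : ℝ) < s.card := by exact_mod_cast hs.card_pos
  have h := Real.geom_mean_le_arith_mean s (fun _ => 1) z (fun _ _ => zero_le_one)
    (by simpa using hs) hz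
  simp only [Real.rpow_one, Finset.sum_const, nsmul_eq_mul, mul_one, one_mul] at h
  have hP : 0 ≤ ∏ i ∈ s, z i := Finset.prod_nonneg hz
  have h2 := pow_le_pow_left₀ (Real.rpow_nonneg hP _) h s.card
  rw [← Real.rpow_natCast ((∏ i ∈ s, z i) ^ _) s.card, ← Real.rpow_mul hP,
    inv_mul_cancel₀ hc.ne', Real.rpow_one] at h2
  refine h2.trans (pow_le_pow_left₀ (div_nonneg (Finset.sum_nonneg hz) hc.le) ?_ _)
  exact div_le_div_of_nonneg_right hB hc.le

theorem upper (e d : ℕ) (he : 2 ≤ e) (hed : e ∣ d) (hd : 0 < d) (t : ℕ → ℤ) (Q : ℝ) (s : ℝ)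
    (ht : ∀ i < d, |(t i : ℝ) - s| ≤ Q / 2) :
    ((nrm e t d : ℤ) : ℝ) ^ 2 ≤ (d ^ 2 * Q ^ 2 / (4 * e.totient)) ^ e.totient := by
  have he0 : 0 < e := by omega
  have hprim := Complex.isPrimitiveRoot_exp e he0.ne'
  have h1 : ((nrm e t d : ℤ) : ℝ) ^ 2 = ∏ ζ ∈ primitiveRoots e ℂ,
      Complex.normSq (∑ i ∈ range d, (((t i : ℝ) - s : ℝ) : ℂ) * ζ ^ i) := by
    have h2 : ((nrm e t d : ℤ) : ℝ) ^ 2 = Complex.normSq ((nrm e t d : ℤ) : ℂ) := by
      rw [show ((nrm e t d : ℤ) : ℂ) = (((nrm e t d : ℤ) : ℝ) : ℂ) by push_cast; rfl,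
        Complex.normSq_ofReal]
      ring
    rw [h2, nrm_eq e he0, map_prod]
    refine Finset.prod_congr rfl fun ζ hζ => ?_
    congr 1
    have h3 : ∑ i ∈ range d, ζ ^ i = 0 := by
      obtain ⟨k, hk⟩ := hed
      have hp := isPrimitiveRoot_of_mem_primitiveRoots hζ
      have h4 : ζ ^ d = 1 := by rw [hk, pow_mul, hp.pow_eq_one, one_pow]
      have h5 : ζ ≠ 1 := hp.ne_one (by omega)
      rw [geom_sum_eq h5, h4, sub_self, zero_div]
    have h6 : ∑ i ∈ range d, (((t i : ℝ) - s : ℝ) : ℂ) * ζ ^ i =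
        ∑ i ∈ range d, (t i : ℂ) * ζ ^ i - s * ∑ i ∈ range d, ζ ^ i := by
      rw [Finset.mul_sum, ← Finset.sum_sub_distrib]
      refine Finset.sum_congr rfl fun i _ => ?_
      push_cast; ring
    rw [h6, h3, mul_zero, sub_zero]
  have hcard : (primitiveRoots e ℂ).card = e.totient := hprim.card_primitiveRoots
  have hpos : 0 < e.totient := Nat.totient_pos.2 he0
  have hne : (primitiveRoots e ℂ).Nonempty := by
    rw [← Finset.card_pos, hcard]; exact hpos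
  have hB : ∑ ζ ∈ primitiveRoots e ℂ,
      Complex.normSq (∑ i ∈ range d, (((t i : ℝ) - s : ℝ) : ℂ) * ζ ^ i) ≤ d ^ 2 * Q ^ 2 / 4 := by
    refine (sum_prim_le e d he0 hed hd _).trans ?_
    have h7 : ∑ i ∈ range d, ((t i : ℝ) - s) ^ 2 ≤ ∑ _i ∈ range d, (Q / 2) ^ 2 := by
      refine Finset.sum_le_sum fun i hi => ?_
      exact sq_le_sq' (by linarith [(abs_le.1 (ht i (mem_range.1 hi))).1])
        ((abs_le.1 (ht i (mem_range.1 hi))).2)
    rw [Finset.sum_const, card_range, nsmul_eq_mul] at h7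
    have hd' : (0 : ℝ) ≤ d := by positivity
    calc (d : ℝ) * ∑ i ∈ range d, ((t i : ℝ) - s) ^ 2 ≤ d * (d * (Q / 2) ^ 2) :=
          mul_le_mul_of_nonneg_left h7 hd'
      _ = _ := by ring
  rw [h1]
  refine (prod_le_pow _ hne _ (fun _ _ => Complex.normSq_nonneg _) _ hB).trans (le_of_eq ?_)
  rw [hcard]
  congr 1
  have : (e.totient : ℝ) ≠ 0 := by exact_mod_cast hpos.ne'
  field_simp

end Pool.Agent.H904.CC
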