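import Mathlib
import Pool.Agent.H904.CC.Bnd

/-! Periodic sequences and the main theorem on sequences. -/

set_option autoImplicit false

namespace Pool.Agent.H904.CC

open Polynomial Finset

theorem dvd_of_nrm_zero (e : ℕ) (he : 0 < e) (t : ℕ → ℤ) (d : ℕ) (h : nrm e t d = 0) :
    cyclotomic e ℤ ∣ tp t d := by
  have h1 := nrm_eq e he t d
  rw [h, Int.cast_zero, eq_comm, Finset.prod_eq_zero_iff] at h1
  obtain ⟨ζ, hζ, h0⟩ := h1
  have hp := isPrimitiveRoot_of_mem_primitiveRoots hζ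
  rw [cyclotomic_eq_minpoly hp he]
  refine minpoly.isIntegrallyClosed_dvd (hp.isIntegral he) ?_
  rw [aeval_tp]; exact h0

theorem coeff_tp (t : ℕ → ℤ) (d i : ℕ) (hi : i < d) : (tp t d).coeff i = t i := by
  rw [tp, finsetSum_coeff]
  simp only [coeff_C_mul, coeff_X_pow]
  rw [Finset.sum_eq_single i]
  · simp
  · intro j _ hj; simp [Ne.symm hj]
  · intro h; exact absurd (mem_range.2 hi) h

theorem periodic_two (d : ℕ) (hd : 0 < d) (t : ℕ → ℤ) (ht : ∀ i, t (i + d) = t i)
    (h : ∀ e, 2 < e → e ∣ d → cyclotomic e ℤ ∣ tp t d) : ∀ i < d, t (i + 2) = t i := by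
  set D : ℤ[X] := tp (fun i => t i - t (i + 2)) d with hD
  have hid : X ^ 2 * D = (X ^ 2 - 1) * tp t d - (C (t 0) + C (t 1) * X) * (X ^ d - 1) := by
    have h1 := Finset.sum_range_succ' (fun i => C (t i) * (X : ℤ[X]) ^ i) (d + 1)
    have h2 := Finset.sum_range_succ' (fun i => C (t (i + 1)) * (X : ℤ[X]) ^ (i + 1)) d
    have h3 := Finset.sum_range_succ (fun i => C (t i) * (X : ℤ[X]) ^ i) (d + 1)
    have h4 := Finset.sum_range_succ (fun i => C (t i) * (X : ℤ[X]) ^ i) d
    have h5 : t d = t 0 := by simpa using ht 0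
    have h6 : t (d + 1) = t 1 := by rw [add_comm d 1]; exact ht 1
    rw [h2] at h1
    rw [h1, h4, h5, h6] at h3
    have h7 : X ^ 2 * D = X ^ 2 * tp t d - ∑ i ∈ range d, C (t (i + 1 + 1)) * (X : ℤ[X]) ^ (i + 1 + 1) := by
      rw [hD, tp, tp, Finset.mul_sum, Finset.mul_sum, ← Finset.sum_sub_distrib]
      refine Finset.sum_congr rfl fun i _ => ?_
      rw [C_sub, show i + 2 = i + 1 + 1 from rfl]; ring
    rw [h7]
    simp only [zero_add, pow_zero, mul_one, pow_one] at h3
    rw [← tp] at h3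
    linear_combination -h3
  have hdvd : (X : ℚ[X]) ^ d - 1 ∣ ((X ^ 2 - 1) * tp t d).map (Int.castRingHom ℚ) := by
    rw [← prod_cyclotomic_eq_X_pow_sub_one hd]
    refine Finset.prod_dvd_of_coprime ?_ ?_
    · intro i _ j _ hij
      exact cyclotomic.isCoprime_rat hij
    · intro e he
      have hed : e ∣ d := Nat.dvd_of_mem_divisors he
      rw [← map_cyclotomic_int e ℚ]
      refine Polynomial.map_dvd _ ?_
      have he0 : 0 < e := Nat.pos_of_dvd_of_pos hed hd
      rcases Nat.lt_or_ge 2 e with h2 | h2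
      · exact Dvd.dvd.mul_left (h e h2 hed) _
      · refine Dvd.dvd.mul_right ?_ _
        interval_cases e
        · rw [cyclotomic_one]; exact ⟨X + 1, by ring⟩
        · rw [cyclotomic_two]; exact ⟨X - 1, by ring⟩
  have hdvd2 : (X : ℚ[X]) ^ d - 1 ∣ X ^ 2 * D.map (Int.castRingHom ℚ) := by
    have h1 := congrArg (Polynomial.map (Int.castRingHom ℚ)) hid
    rw [Polynomial.map_mul, Polynomial.map_pow, Polynomial.map_X, Polynomial.map_sub] at h1
    rw [h1]
    refine dvd_sub hdvd ?_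
    rw [Polynomial.map_mul]
    refine Dvd.dvd.mul_left ?_ _
    simp
  have hcop : IsCoprime ((X : ℚ[X]) ^ d - 1) (X ^ 2) := by
    refine IsCoprime.pow_right ?_
    refine ⟨-1, X ^ (d - 1), ?_⟩
    have : (X : ℚ[X]) ^ (d - 1) * X = X ^ d := by
      rw [← pow_succ, Nat.sub_add_cancel hd]
    rw [this]; ring
  have hdvd3 : (X : ℚ[X]) ^ d - 1 ∣ D.map (Int.castRingHom ℚ) := hcop.dvd_of_dvd_mul_left hdvd2
  have hdeg : (D.map (Int.castRingHom ℚ)).degree < ((X : ℚ[X]) ^ d - 1).degree := by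
    have h1 : ((X : ℚ[X]) ^ d - 1).degree = d := by
      have := degree_X_pow_sub_C hd (1 : ℚ)
      simpa using this
    rw [h1]
    refine lt_of_le_of_lt degree_map_le ?_
    have h2 : D ∈ degreeLT ℤ d := by
      rw [hD, tp]
      refine Submodule.sum_mem _ fun i hi => ?_
      rw [mem_degreeLT]
      exact lt_of_le_of_lt (degree_C_mul_X_pow_le _ _) (by exact_mod_cast mem_range.1 hi)
    exact mem_degreeLT.1 h2
  have hz : D.map (Int.castRingHom ℚ) = 0 := by
    by_contra hne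
    exact absurd (Polynomial.degree_le_of_dvd hdvd3 hne) (not_le.2 hdeg)
  have hz' : D = 0 := by
    refine (Polynomial.map_eq_zero_iff ?_).1 hz
    exact Int.cast_injective
  intro i hi
  have := coeff_tp (fun i => t i - t (i + 2)) d i hi
  rw [← hD, hz', coeff_zero] at this
  linarith

theorem seq_main (d : ℕ) (hd : 0 < d) (a b : ℤ) (ha : 0 < a) (hb : 0 < b) (hab : IsCoprime a b)
    (hne : a ≠ b) (x y : ℕ → ℤ) (hx : ∀ i, x (i + d) = x i)
    (hy : ∀ i, a * x (i + 1) - b * x i = y i) (g : ℤ) (hg : 0 < g)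
    (hgy : ∀ i < d, ∀ j < d, g ∣ y i - y j) (Q : ℝ)
    (hQ : ∀ i < d, ∀ j < d, ((y i - y j : ℤ) : ℝ) ≤ g * Q)
    (hcond : ∀ e, 2 < e → e ∣ d →
      (g : ℝ) ^ 2 * (d ^ 2 * Q ^ 2) ^ e.totient < (4 * e.totient * (a * b)) ^ e.totient) :
    x 2 = x 0 := by
  have hyd : ∀ i, y (i + d) = y i := by
    intro i
    rw [← hy, ← hy, hx, show i + d + 1 = (i + 1) + d by ring, hx]
  have hy_mod : ∀ i, y i = y (i % d) := by
    intro i
    conv_lhs => rw [← Nat.mod_add_div i d]
    induction i / d with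
    | zero => simp
    | succ n ih => rw [Nat.mul_succ, ← add_assoc, hyd, ih]
  have hgy' : ∀ i, g ∣ y i - y 0 := by
    intro i; rw [hy_mod i]; exact hgy _ (Nat.mod_lt _ hd) _ hd
  choose t ht using hgy'
  have htd : ∀ i, t (i + d) = t i := by
    intro i
    have h1 := ht (i + d)
    rw [hyd, ht i] at h1
    exact (mul_left_cancel₀ hg.ne' h1).symm
  have hgR : (0 : ℝ) < g := by exact_mod_cast hg
  have ht2 : ∀ i < d, ∀ j < d, (t i : ℝ) - t j ≤ Q := by
    intro i hi j hj
    have h1 := hQ i hi j hj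
    have h2 : y i - y j = g * (t i - t j) := by linear_combination ht i - ht j
    rw [h2] at h1
    push_cast at h1
    exact le_of_mul_le_mul_left h1 hgR
  obtain ⟨i1, hi1, hmin⟩ := Finset.exists_min_image (range d) t ⟨0, mem_range.2 hd⟩
  obtain ⟨i2, hi2, hmax⟩ := Finset.exists_max_image (range d) t ⟨0, mem_range.2 hd⟩
  have hs : ∀ i < d, |(t i : ℝ) - ((t i1 : ℝ) + t i2) / 2| ≤ Q / 2 := by
    intro i hi
    have h1 : (t i1 : ℝ) ≤ t i := by exact_mod_cast hmin i (mem_range.2 hi)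
    have h2 : (t i : ℝ) ≤ t i2 := by exact_mod_cast hmax i (mem_range.2 hi)
    have h3 := ht2 i2 (mem_range.1 hi2) i1 (mem_range.1 hi1)
    rw [abs_le]; constructor <;> linarith
  have hnz : ∀ e, 2 < e → e ∣ d → cyclotomic e ℤ ∣ tp t d := by
    intro e he hed
    refine dvd_of_nrm_zero e (by omega) t d ?_
    by_contra hN
    have h1 := dvd_mul_nrm e d (by omega) hed hd a b g hab x t (y 0) (by simpa using hx 0)
      (fun i _ => by rw [hy i]; linear_combination ht i)
    have h2 : |hom (cyclotomic e ℤ) a b| ≤ |g * nrm e t d| :=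
      Int.le_of_dvd (abs_pos.2 (mul_ne_zero hg.ne' hN)) ((abs_dvd_abs _ _).2 h1)
    have h3 : ((hom (cyclotomic e ℤ) a b : ℤ) : ℝ) ^ 2 ≤ ((g * nrm e t d : ℤ) : ℝ) ^ 2 := by
      rw [← sq_abs, ← sq_abs ((g * nrm e t d : ℤ) : ℝ)]
      have h4 : |((hom (cyclotomic e ℤ) a b : ℤ) : ℝ)| ≤ |((g * nrm e t d : ℤ) : ℝ)| := by
        exact_mod_cast h2
      exact pow_le_pow_left₀ (abs_nonneg _) h4 2
    have h5 := lower e he a b ha hb
    have h6 := upper e d (by omega) hed hd t Q _ hs
    have h7 := hcond e he hed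
    have hφ : (0 : ℝ) < 4 * e.totient := by
      have : 0 < e.totient := Nat.totient_pos.2 (by omega)
      positivity
    have h8 : ((a * b : ℤ) : ℝ) ^ e.totient ≤
        (g : ℝ) ^ 2 * (d ^ 2 * Q ^ 2 / (4 * e.totient)) ^ e.totient := by
      refine h5.trans (h3.trans ?_)
      push_cast
      rw [mul_pow]
      exact mul_le_mul_of_nonneg_left h6 (sq_nonneg _)
    rw [div_pow, mul_div_assoc', le_div_iff₀ (pow_pos hφ _), ← mul_pow] at h8
    push_cast at h8
    rw [mul_comm ((a : ℝ) * b)] at h8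
    exact absurd h7 (not_lt.2 h8)
  have hper := periodic_two d hd t htd hnz
  have hper' : ∀ i, y (i + 2) = y i := by
    have h1 : ∀ i < d, y (i + 2) = y i := by
      intro i hi
      have h2 := ht (i + 2)
      rw [hper i hi] at h2
      linear_combination h2 - ht i
    intro i
    have h3 : y (i + 2) = y (i % d + 2) := by
      rw [hy_mod (i + 2), hy_mod (i % d + 2)]
      congr 1
      simp [Nat.add_mod]
    rw [h3, h1 _ (Nat.mod_lt _ hd), ← hy_mod]
  have hz : ∀ n, a ^ n * (x (n + 2) - x n) = b ^ n * (x 2 - x 0) := by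
    intro n
    induction n with
    | zero => simp
    | succ n ih =>
      have h1 := hy n
      have h2 := hy (n + 2)
      rw [hper' n] at h2
      have h3 : a * (x (n + 1 + 2) - x (n + 1)) = b * (x (n + 2) - x n) := by
        rw [show n + 1 + 2 = n + 2 + 1 by ring]
        linear_combination h2 - h1
      calc a ^ (n + 1) * (x (n + 1 + 2) - x (n + 1)) = a ^ n * (a * (x (n + 1 + 2) - x (n + 1))) := by ring
        _ = b * (a ^ n * (x (n + 2) - x n)) := by rw [h3]; ring
        _ = _ := by rw [ih]; ring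
  have h1 := hz d
  have h2 : x (d + 2) = x 2 := by rw [add_comm]; exact hx 2
  have h3 : x d = x 0 := by simpa using hx 0
  rw [h2, h3] at h1
  have h4 : (a ^ d - b ^ d) * (x 2 - x 0) = 0 := by linear_combination h1
  rcases mul_eq_zero.1 h4 with h5 | h5
  · exfalso
    apply hne
    have h6 : a ^ d = b ^ d := by linarith
    exact (pow_left_inj₀ ha.le hb.le hd.ne').1 h6
  · linarith

end Pool.Agent.H904.CC
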