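import Mathlib
import Pool.Agent.H904.CC.Per

/-! Cycles of `x ↦ x/2, (p x + c)/2` cut into blocks of one type. -/

set_option autoImplicit false

namespace Pool.Agent.H904.CC

open Finset

/-- `x / 2` for even `x` and `(p x + c) / 2` for odd `x`; `T 3 1` is the `3x+1` map. -/
def T (p c : ℤ) (x : ℤ) : ℤ := if x % 2 = 0 then x / 2 else (p * x + c) / 2

/-- The number of ones among the first `n` letters of the word `w`. -/
def ones (w : ℕ → Bool) (n : ℕ) : ℕ := ((range n).filter fun j => w j = true).card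

/-- The value of the first `n` letters of `w`: the sum of `2 ^ j p ^ k` over the ones, where `j` is
the place of the one (`0, …, n-1`) and `k` the number of the later ones. -/
def val (p : ℤ) (w : ℕ → Bool) : ℕ → ℤ
  | 0 => 0
  | n + 1 => if w n = true then p * val p w n + 2 ^ n else val p w n

/-- The parities of the first `n` terms of the trajectory of `x` are given by the word `w`. -/
def Follows (p c x : ℤ) (w : ℕ → Bool) (n : ℕ) : Prop :=
  ∀ j < n, ((T p c)^[j] x % 2 = 1 ↔ w j = true)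

theorem ones_succ (w : ℕ → Bool) (n : ℕ) :
    ones w (n + 1) = if w n = true then ones w n + 1 else ones w n := by
  unfold ones
  rw [Finset.range_add_one, Finset.filter_insert]
  split_ifs with h
  · rw [Finset.card_insert_of_notMem (by simp)]
  · rfl

theorem follows_eq (p c : ℤ) (hp : Odd p) (hc : Odd c) (x : ℤ) (w : ℕ → Bool) :
    ∀ n, Follows p c x w n → 2 ^ n * (T p c)^[n] x = p ^ ones w n * x + c * val p w n := by
  intro n
  induction n with
  | zero => intro _; simp [ones, val]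
  | succ n ih =>
    intro h
    have h1 := ih fun j hj => h j (by omega)
    have h2 := h n (by omega)
    rw [Function.iterate_succ_apply', ones_succ]
    set z := (T p c)^[n] x with hz
    by_cases hw : w n = true
    · have hz1 : z % 2 = 1 := h2.2 hw
      simp only [val, hw, if_true]
      have h3 : 2 * T p c z = p * z + c := by
        unfold T
        rw [if_neg (by omega)]
        refine Int.mul_ediv_cancel' ?_
        have : Even (p * z + c) := (hp.mul (Int.odd_iff.2 hz1)).add_odd hc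
        exact this.two_dvd
      calc 2 ^ (n + 1) * T p c z = 2 ^ n * (2 * T p c z) := by ring
        _ = p * (2 ^ n * z) + c * 2 ^ n := by rw [h3]; ring
        _ = _ := by rw [h1]; ring
    · have hz0 : z % 2 = 0 := by
        have : ¬ z % 2 = 1 := fun h => hw (h2.1 h)
        omega
      simp only [val, hw, if_false, Bool.false_eq_true]
      have h3 : 2 * T p c z = z := by
        unfold T
        rw [if_pos hz0]
        exact Int.mul_ediv_cancel' (Int.dvd_of_emod_eq_zero hz0)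
      calc 2 ^ (n + 1) * T p c z = 2 ^ n * (2 * T p c z) := by ring
        _ = _ := by rw [h3, h1]

theorem val_bounds (p : ℤ) (hp : 3 ≤ p) (w : ℕ → Bool) :
    ∀ n, 0 ≤ val p w n ∧
      (p - 2) * 2 ^ ones w n * val p w n ≤ 2 ^ n * (p ^ ones w n - 2 ^ ones w n) := by
  intro n
  induction n with
  | zero => simp [ones, val]
  | succ n ih =>
    obtain ⟨h0, h1⟩ := ih
    have h2 : (0 : ℤ) < 2 ^ n := by positivity
    have h3 : (0 : ℤ) < 2 ^ ones w n := by positivity
    have h4 : (2 : ℤ) ^ ones w n ≤ p ^ ones w n := pow_le_pow_left₀ (by norm_num) (by omega) _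
    rw [ones_succ]
    by_cases hw : w n = true
    · simp only [val, hw, if_true]
      refine ⟨by positivity, ?_⟩
      have h5 := mul_le_mul_of_nonneg_left h1 (by omega : (0 : ℤ) ≤ 2 * p)
      rw [pow_succ, pow_succ, pow_succ]
      nlinarith
    · simp only [val, hw, if_false, Bool.false_eq_true]
      refine ⟨h0, h1.trans ?_⟩
      rw [pow_succ]
      have : 0 ≤ 2 ^ n * (p ^ ones w n - 2 ^ ones w n) := mul_nonneg h2.le (by linarith)
      nlinarith

theorem two_le_totient (e : ℕ) (he : 2 < e) : 2 ≤ e.totient := by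
  have h1 := Nat.totient_even he
  have h2 : 0 < e.totient := Nat.totient_pos.2 (by omega)
  obtain ⟨k, hk⟩ := h1
  omega

/-- The general criterion. -/
theorem criterion (p c : ℤ) (hp : Odd p) (hp3 : 3 ≤ p) (hc : Odd c) (l m d : ℕ) (hl : 0 < l)
    (hd : 0 < d) (x : ℤ) (hx : (T p c)^[d * l] x = x) (w : ℕ → ℕ → Bool)
    (hw : ∀ i < d, Follows p c ((T p c)^[i * l] x) (w i) l) (hm : ∀ i < d, ones (w i) l = m)
    (g : ℤ) (hg : 0 < g) (hgw : ∀ i < d, ∀ j < d, g ∣ val p (w i) l - val p (w j) l) (Q : ℝ)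
    (hQ : ∀ i < d, ∀ j < d, ((val p (w i) l - val p (w j) l : ℤ) : ℝ) ≤ g * Q)
    (hcond : ∀ e, 2 < e → e ∣ d → ((c * g : ℤ) : ℝ) ^ 2 * (d ^ 2 * Q ^ 2) ^ e.totient <
      (4 * e.totient * (2 ^ l * p ^ m)) ^ e.totient) :
    (T p c)^[2 * l] x = x := by
  have hc0 : c ≠ 0 := by rintro rfl; exact absurd hc (by decide)
  have hcpos : 0 < |c| := abs_pos.2 hc0
  have hX : ∀ i, (T p c)^[(i + d) * l] x = (T p c)^[i * l] x := by
    intro i
    rw [add_mul, Function.iterate_add_apply, hx]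
  have hval : ∀ i < d, 2 ^ l * (T p c)^[(i + 1) * l] x - p ^ m * (T p c)^[i * l] x =
      c * val p (w i) l := by
    intro i hi
    have h1 := follows_eq p c hp hc _ (w i) l (hw i hi)
    rw [hm i hi, ← Function.iterate_add_apply] at h1
    rw [add_mul, one_mul, add_comm (i * l) l, h1]
    ring
  have key := seq_main d hd (2 ^ l) (p ^ m) (by positivity) (by positivity) ?_ ?_
    (fun i => (T p c)^[i * l] x)
    (fun i => 2 ^ l * (T p c)^[(i + 1) * l] x - p ^ m * (T p c)^[i * l] x) hX (fun i => rfl)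
    (|c| * g) (mul_pos hcpos hg) ?_ Q ?_ ?_
  · simpa using key
  · refine IsCoprime.pow ?_
    obtain ⟨k, hk⟩ := hp
    exact ⟨-k, 1, by rw [hk]; ring⟩
  · intro h
    have h1 : Even ((2 : ℤ) ^ l) := (Int.even_pow.2 ⟨even_two, hl.ne'⟩)
    rw [h] at h1
    exact (Int.not_even_iff_odd.2 (hp.pow)) h1
  · intro i hi j hj
    show |c| * g ∣ (2 ^ l * (T p c)^[(i + 1) * l] x - p ^ m * (T p c)^[i * l] x) -
      (2 ^ l * (T p c)^[(j + 1) * l] x - p ^ m * (T p c)^[j * l] x)
    rw [hval i hi, hval j hj, ← mul_sub]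
    exact mul_dvd_mul ((abs_dvd c c).2 dvd_rfl) (hgw i hi j hj)
  · intro i hi j hj
    show (((2 ^ l * (T p c)^[(i + 1) * l] x - p ^ m * (T p c)^[i * l] x) -
      (2 ^ l * (T p c)^[(j + 1) * l] x - p ^ m * (T p c)^[j * l] x) : ℤ) : ℝ) ≤ _
    rw [hval i hi, hval j hj, ← mul_sub]
    have h1 := hQ i hi j hj
    have h2 := hQ j hj i hi
    have h3 : ((val p (w j) l - val p (w i) l : ℤ) : ℝ) = -((val p (w i) l - val p (w j) l : ℤ) : ℝ) := by
      push_cast; ring
    rw [h3] at h2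
    have h4 : |((val p (w i) l - val p (w j) l : ℤ) : ℝ)| ≤ g * Q := abs_le.2 ⟨by linarith, h1⟩
    push_cast at h4 ⊢
    calc (c : ℝ) * (val p (w i) l - val p (w j) l) ≤ |(c : ℝ) * (val p (w i) l - val p (w j) l)| :=
          le_abs_self _
      _ = |(c : ℝ)| * |(val p (w i) l : ℝ) - val p (w j) l| := abs_mul _ _
      _ ≤ |(c : ℝ)| * (g * Q) := mul_le_mul_of_nonneg_left h4 (abs_nonneg _)
      _ = _ := by ring
  · intro e he hed
    have h1 := hcond e he hed
    push_cast at h1 ⊢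
    rwa [mul_pow |(c : ℝ)|, sq_abs, ← mul_pow]

/-- The differences of the values of the blocks of one type. -/
theorem val_diff (p : ℤ) (hp : 3 ≤ p) (v w : ℕ → Bool) (l m : ℕ) (hv : ones v l = m) :
    (p - 2) * 2 ^ m * (val p v l - val p w l) ≤ 2 ^ l * p ^ m := by
  obtain ⟨h0, h1⟩ := val_bounds p hp v l
  obtain ⟨h2, h3⟩ := val_bounds p hp w l
  rw [hv] at h1
  have h4 : (0 : ℤ) < 2 ^ l := by positivity
  have h5 : (0 : ℤ) < 2 ^ m := by positivity
  have h6 : 0 ≤ (p - 2) * 2 ^ m * val p w l := mul_nonneg (mul_nonneg (by omega) h5.le) h2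
  nlinarith

theorem blocks (p c : ℤ) (hp : Odd p) (hp3 : 3 ≤ p) (hc : Odd c) (l m d : ℕ) (hl : 0 < l)
    (hd : 0 < d) (x : ℤ) (hx : (T p c)^[d * l] x = x) (w : ℕ → ℕ → Bool)
    (hw : ∀ i < d, Follows p c ((T p c)^[i * l] x) (w i) l) (hm : ∀ i < d, ones (w i) l = m)
    (g : ℤ) (hg : 0 < g) (hgw : ∀ i < d, ∀ j < d, g ∣ val p (w i) l - val p (w j) l) (Q : ℤ)
    (hQ : ∀ i < d, ∀ j < d, val p (w i) l - val p (w j) l ≤ g * Q)
    (hcond : |c| * Q * d ^ 2 < (p - 2) * 2 ^ (m + 3)) :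
    (T p c)^[2 * l] x = x := by
  obtain ⟨i1, hi1, hmin⟩ := Finset.exists_min_image (range d) (fun i => val p (w i) l)
    ⟨0, mem_range.2 hd⟩
  obtain ⟨i2, hi2, hmax⟩ := Finset.exists_max_image (range d) (fun i => val p (w i) l)
    ⟨0, mem_range.2 hd⟩
  set H : ℤ := val p (w i2) l - val p (w i1) l with hH
  have hgR : (0 : ℝ) < g := by exact_mod_cast hg
  have hc0 : c ≠ 0 := by rintro rfl; exact absurd hc (by decide)
  have hc1 : (1 : ℝ) ≤ |(c : ℝ)| := by
    have : 1 ≤ |c| := Int.one_le_abs hc0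
    exact_mod_cast this
  have hH0 : 0 ≤ H := by
    have := hmin i2 hi2
    omega
  have hHQ : H ≤ g * Q := hQ i2 (mem_range.1 hi2) i1 (mem_range.1 hi1)
  have hHL := val_diff p hp3 (w i2) (w i1) l m (hm i2 (mem_range.1 hi2))
  rw [← hH] at hHL
  refine criterion p c hp hp3 hc l m d hl hd x hx w hw hm g hg hgw ((H : ℝ) / g) ?_ ?_
  · intro i hi j hj
    rw [mul_div_cancel₀ _ hgR.ne']
    have h1 := hmin j (mem_range.2 hj)
    have h2 := hmax i (mem_range.2 hi)
    have : val p (w i) l - val p (w j) l ≤ H := by omega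
    exact_mod_cast this
  · intro e he _
    set q : ℝ := (H : ℝ) / g with hq
    have hq0 : 0 ≤ q := div_nonneg (by exact_mod_cast hH0) hgR.le
    have hgq : (g : ℝ) * q = H := mul_div_cancel₀ _ hgR.ne'
    have hqQ : q ≤ Q := by
      rw [hq, div_le_iff₀ hgR, mul_comm]; exact_mod_cast hHQ
    set L : ℝ := 2 ^ l * (p : ℝ) ^ m with hL
    have hpR : (3 : ℝ) ≤ p := by exact_mod_cast hp3
    have hL0 : 0 < L := by positivity
    have hK : (0 : ℝ) < (p - 2) * 2 ^ m := mul_pos (by linarith) (by positivity)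
    have h1 : ((p : ℝ) - 2) * 2 ^ m * H ≤ L := by
      have : (((p - 2) * 2 ^ m * H : ℤ) : ℝ) ≤ ((2 ^ l * p ^ m : ℤ) : ℝ) := by exact_mod_cast hHL
      push_cast at this
      exact this
    have h2 : |(c : ℝ)| * Q * d ^ 2 < ((p : ℝ) - 2) * 2 ^ m * 8 := by
      have : ((|c| * Q * d ^ 2 : ℤ) : ℝ) < (((p - 2) * 2 ^ (m + 3) : ℤ) : ℝ) := by
        exact_mod_cast hcond
      push_cast at this
      rw [pow_add] at this
      linarith
    have h3 : |(c : ℝ)| * q * d ^ 2 < ((p : ℝ) - 2) * 2 ^ m * 8 := by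
      refine lt_of_le_of_lt ?_ h2
      have hd2 : (0 : ℝ) ≤ d ^ 2 := by positivity
      have := mul_le_mul_of_nonneg_left hqQ (abs_nonneg (c : ℝ))
      exact mul_le_mul_of_nonneg_right this hd2
    -- the main inequality
    have h4 : |(c : ℝ)| * g * (d ^ 2 * q ^ 2) < 8 * L := by
      rcases eq_or_lt_of_le hH0 with h0 | h0
      · have : q = 0 := by rw [hq, ← h0]; simp
        rw [this]; simp; exact hL0
      · have hHR : (0 : ℝ) < H := by exact_mod_cast h0
        have e1 : |(c : ℝ)| * g * (d ^ 2 * q ^ 2) = H * (|(c : ℝ)| * q * d ^ 2) := by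
          rw [← hgq]; ring
        rw [e1]
        calc (H : ℝ) * (|(c : ℝ)| * q * d ^ 2) < H * (((p : ℝ) - 2) * 2 ^ m * 8) :=
              mul_lt_mul_of_pos_left h3 hHR
          _ = 8 * (((p : ℝ) - 2) * 2 ^ m * H) := by ring
          _ ≤ 8 * L := by linarith
    have hcg1 : 1 ≤ |(c : ℝ)| * g := by
      have : (1 : ℝ) ≤ g := by exact_mod_cast hg
      nlinarith
    have hdq : (0 : ℝ) ≤ d ^ 2 * q ^ 2 := by positivity
    have h5 : (d : ℝ) ^ 2 * q ^ 2 ≤ 8 * L := by
      refine le_trans ?_ h4.le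
      exact le_mul_of_one_le_left hdq hcg1
    obtain ⟨k, hk⟩ := Nat.exists_eq_add_of_le (two_le_totient e he)
    have hφ : (8 : ℝ) ≤ 4 * e.totient := by
      have : (2 : ℝ) ≤ e.totient := by exact_mod_cast two_le_totient e he
      linarith
    have h6 : (8 * L) ^ e.totient ≤ (4 * e.totient * L) ^ e.totient :=
      pow_le_pow_left₀ (by positivity) (mul_le_mul_of_nonneg_right hφ hL0.le) _
    refine lt_of_lt_of_le ?_ h6
    have e2 : ((c * g : ℤ) : ℝ) ^ 2 = (|(c : ℝ)| * g) ^ 2 := by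
      push_cast; rw [mul_pow, mul_pow, sq_abs]
    rw [e2, hk, pow_add, pow_add, ← mul_assoc, ← mul_pow]
    have h7 : (|(c : ℝ)| * g * (d ^ 2 * q ^ 2)) ^ 2 < (8 * L) ^ 2 :=
      pow_lt_pow_left₀ h4 (by positivity) two_ne_zero
    have h8 : ((d : ℝ) ^ 2 * q ^ 2) ^ k ≤ (8 * L) ^ k := pow_le_pow_left₀ hdq h5 k
    have h9 : (0 : ℝ) < (8 * L) ^ k := by positivity
    calc (|(c : ℝ)| * g * (d ^ 2 * q ^ 2)) ^ 2 * ((d : ℝ) ^ 2 * q ^ 2) ^ k ≤
          (|(c : ℝ)| * g * (d ^ 2 * q ^ 2)) ^ 2 * (8 * L) ^ k :=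
          mul_le_mul_of_nonneg_left h8 (by positivity)
      _ < (8 * L) ^ 2 * (8 * L) ^ k := mul_lt_mul_of_pos_right h7 h9

end Pool.Agent.H904.CC
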