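import Mathlib
import Pool.Graph.R_seed8.W42.Form

/-! An explicit lower bound for `|2 ^ l - 3 ^ m|`. -/

set_option autoImplicit false

namespace Pool.Agent.H904.CC

open Finset

/-- The finite check. -/
def chk (m l : ℕ) : Bool :=
  Nat.beq l 0 || (Nat.beq l 3 && Nat.beq m 2) ||
    decide ((3 : ℤ) ^ m - 2 ^ m < 2 ^ m * |(2 : ℤ) ^ l - 3 ^ m|)

theorem chk_all : ∀ m < 18, ∀ l < 37, chk m l = true := by decide +kernel

theorem pow_ge (r : ℕ) (hr : 30 ≤ r) : (49 : ℝ) * (39 * r + 55) ≤ (204800 / 117649) ^ r := by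
  refine le_trans ?_ (pow_le_pow_left₀ (by norm_num) (by norm_num : (3 : ℝ) / 2 ≤ 204800 / 117649) r)
  induction r, hr using Nat.le_induction with
  | base => norm_num
  | succ n hn ih =>
    rw [pow_succ]
    have : (30 : ℝ) ≤ n := by exact_mod_cast hn
    push_cast
    nlinarith

theorem pow43 (m : ℕ) (hm : 3 ≤ m) : (2 : ℝ) * 3 ^ m ≤ 4 ^ m := by
  induction m, hm using Nat.le_induction with
  | base => norm_num
  | succ n hn ih =>
    rw [pow_succ, pow_succ]
    have : (0 : ℝ) < 3 ^ n := by positivity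
    linarith

theorem pow98 (m : ℕ) (hm : 12 ≤ m) : (4 : ℝ) * 8 ^ m ≤ 9 ^ m := by
  induction m, hm using Nat.le_induction with
  | base => norm_num
  | succ n hn ih =>
    rw [pow_succ, pow_succ]
    have : (0 : ℝ) < 8 ^ n := by positivity
    linarith

/-- The lower bound for the linear form. -/
theorem form_lower (m l : ℕ) (hm : 18 ≤ m) (h1 : (2 : ℝ) ^ l < 2 * 3 ^ m) (h2 : (3 : ℝ) ^ m < 2 * 2 ^ l) :
    2 < 2 ^ m * |(l : ℝ) * Real.log 2 - m * Real.log 3| := by
  have hl1 : l < 2 * m := by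
    by_contra hcon
    push Not at hcon
    have h3 : (4 : ℝ) ^ m ≤ 2 ^ l := by
      calc (4 : ℝ) ^ m = 2 ^ (2 * m) := by rw [pow_mul]; norm_num
        _ ≤ 2 ^ l := pow_le_pow_right₀ (by norm_num) hcon
    have := pow43 m (by omega)
    linarith
  have hl2 : 3 * m < 2 * l := by
    by_contra hcon
    push Not at hcon
    have h3 : ((2 : ℝ) ^ l) ^ 2 ≤ 8 ^ m := by
      calc ((2 : ℝ) ^ l) ^ 2 = 2 ^ (2 * l) := by rw [← pow_mul, mul_comm]
        _ ≤ 2 ^ (3 * m) := pow_le_pow_right₀ (by norm_num) hcon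
        _ = _ := by rw [pow_mul]; norm_num
    have h4 := pow98 m (by omega)
    have h5 : ((3 : ℝ) ^ m) ^ 2 = 9 ^ m := by rw [← pow_mul, mul_comm, pow_mul]; norm_num
    have h6 : ((3 : ℝ) ^ m) ^ 2 < (2 * 2 ^ l) ^ 2 := pow_lt_pow_left₀ h2 (by positivity) two_ne_zero
    rw [mul_pow] at h6
    linarith
  rcases Nat.lt_or_ge m 1186 with hm2 | hm2
  · have h3 := Pool.Agent.W42.Form.cf2 l m (by omega) (by omega)
    have h4 : (2 : ℝ) ^ 18 ≤ 2 ^ m := pow_le_pow_right₀ (by norm_num) hm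
    have h5 : (2 : ℝ) < 2 ^ 18 * 0.000018 := by norm_num
    push_cast at h3
    calc (2 : ℝ) < 2 ^ 18 * 0.000018 := h5
      _ ≤ 2 ^ m * |(l : ℝ) * Real.log 2 - m * Real.log 3| := by gcongr
  · obtain ⟨r, hr⟩ : ∃ r, r = (m - 16) / 39 := ⟨_, rfl⟩
    have hr30 : 30 ≤ r := by omega
    have hr1 : 39 * r + 16 ≤ m := by omega
    have hr2 : m < 39 * r + 55 := by omega
    have h3 := Pool.Agent.W42.Form.lower r l m (by omega) (by omega) (by
      refine le_trans ?_ (pow_ge r hr30)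
      have h4 : (l : ℝ) - m ≤ m := by
        have : (l : ℝ) < 2 * m := by exact_mod_cast hl1
        linarith
      have h5 : (m : ℝ) ≤ 39 * r + 55 := by exact_mod_cast hr2.le
      push_cast
      linarith)
    push_cast at h3
    have h4 : (2 : ℝ) ^ 13 * 2 ^ (39 * r) * 8 ≤ 2 ^ m := by
      calc (2 : ℝ) ^ 13 * 2 ^ (39 * r) * 8 = 2 ^ (39 * r + 16) := by
            rw [pow_add]; norm_num; ring
        _ ≤ 2 ^ m := pow_le_pow_right₀ (by norm_num) hr1
    have h5 := mul_le_mul_of_nonneg_right h4 (abs_nonneg ((l : ℝ) * Real.log 2 - m * Real.log 3))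
    linarith

/-- `|2 ^ l - 3 ^ m|` is larger than `(3 / 2) ^ m - 1`, except for `l = 0` and `(l, m) = (3, 2)`. -/
theorem gap (l m : ℕ) (hl : 0 < l) (hlm : ¬ (l = 3 ∧ m = 2)) :
    (3 : ℤ) ^ m - 2 ^ m < 2 ^ m * |(2 : ℤ) ^ l - 3 ^ m| := by
  rcases le_or_gt ((2 : ℤ) * 3 ^ m) (2 ^ l) with h1 | h1
  · have h3 : (0 : ℤ) < 3 ^ m := by positivity
    have h4 : (1 : ℤ) ≤ 2 ^ m := one_le_pow₀ (by norm_num)
    rw [abs_of_nonneg (by linarith)]
    nlinarith
  rcases le_or_gt ((2 : ℤ) * 2 ^ l) (3 ^ m) with h2 | h2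
  · have h3 : (0 : ℤ) < 2 ^ l := by positivity
    have h4 : 1 ≤ m := by
      by_contra hcon
      have : m = 0 := by omega
      rw [this] at h2
      have : (2 : ℤ) ≤ 2 ^ l := by
        calc (2 : ℤ) = 2 ^ 1 := by norm_num
          _ ≤ 2 ^ l := pow_le_pow_right₀ (by norm_num) hl
      omega
    have h5 : (2 : ℤ) ≤ 2 ^ m := by
      calc (2 : ℤ) = 2 ^ 1 := by norm_num
        _ ≤ 2 ^ m := pow_le_pow_right₀ (by norm_num) h4
    rw [abs_of_nonpos (by linarith)]
    nlinarith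
  rcases Nat.lt_or_ge m 18 with hm | hm
  · have hl2 : l < 37 := by
      by_contra hcon
      push Not at hcon
      have h3 : (2 : ℤ) ^ 37 ≤ 2 ^ l := pow_le_pow_right₀ (by norm_num) hcon
      have h4 : (3 : ℤ) ^ m ≤ 3 ^ 17 := pow_le_pow_right₀ (by norm_num) (by omega)
      norm_num at h3 h4
      omega
    have h3 := chk_all m hm l hl2
    rw [chk, Bool.or_eq_true, Bool.or_eq_true, Bool.and_eq_true] at h3
    rcases h3 with (h3 | h3) | h3
    · have := Nat.eq_of_beq_eq_true h3; omega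
    · exact absurd ⟨Nat.eq_of_beq_eq_true h3.1, Nat.eq_of_beq_eq_true h3.2⟩ hlm
    · exact of_decide_eq_true h3
  · have h1R : (2 : ℝ) ^ l < 2 * 3 ^ m := by exact_mod_cast h1
    have h2R : (3 : ℝ) ^ m < 2 * 2 ^ l := by exact_mod_cast h2
    have h3 := form_lower m l hm h1R h2R
    set y : ℝ := (l : ℝ) * Real.log 2 - m * Real.log 3 with hy
    have hb : (0 : ℝ) < 3 ^ m := by positivity
    have el : (2 : ℝ) ^ l = 3 ^ m * Real.exp y := by
      rw [hy, Real.exp_sub, Real.exp_nat_mul, Real.exp_nat_mul, Real.exp_log (by norm_num),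
        Real.exp_log (by norm_num)]
      field_simp
    have h8 : |y| / 2 ≤ |Real.exp y - 1| := by
      rcases le_total 0 y with h | h
      · rw [abs_of_nonneg h, abs_of_nonneg (by linarith [Real.one_le_exp h])]
        have := Real.add_one_le_exp y
        linarith
      · have hey : (1 : ℝ) / 2 < Real.exp y := by
          have : (3 : ℝ) ^ m < 2 * (3 ^ m * Real.exp y) := by rw [← el]; exact h2R
          nlinarith
        have h9 : Real.exp y ≤ 1 := Real.exp_le_one_iff.2 h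
        rw [abs_of_nonpos h, abs_of_nonpos (by linarith)]
        have h10 := Real.add_one_le_exp (-y)
        have h11 : Real.exp (-y) * Real.exp y = 1 := by rw [← Real.exp_add]; simp
        have h12 : (-y + 1) * Real.exp y ≤ Real.exp (-y) * Real.exp y :=
          mul_le_mul_of_nonneg_right h10 (Real.exp_pos _).le
        rw [h11] at h12
        nlinarith
    have h9 : |(2 : ℝ) ^ l - 3 ^ m| = 3 ^ m * |Real.exp y - 1| := by
      rw [el, show (3 : ℝ) ^ m * Real.exp y - 3 ^ m = 3 ^ m * (Real.exp y - 1) by ring, abs_mul,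
        abs_of_pos hb]
    have h10 : (3 : ℝ) ^ m - 2 ^ m < 2 ^ m * |(2 : ℝ) ^ l - 3 ^ m| := by
      rw [h9]
      have h2m : (0 : ℝ) < 2 ^ m := by positivity
      have h11 : 1 < 2 ^ m * |Real.exp y - 1| := by
        have := mul_le_mul_of_nonneg_left h8 h2m.le
        linarith
      calc (3 : ℝ) ^ m - 2 ^ m < 1 * 3 ^ m := by linarith
        _ < (2 ^ m * |Real.exp y - 1|) * 3 ^ m := mul_lt_mul_of_pos_right h11 hb
        _ = _ := by ring
    exact_mod_cast h10

end Pool.Agent.H904.CC
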