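import Mathlib
import Pool.Agent.H904.CC.Dyn
import Pool.Agent.H904.CC.Gap

/-! Cycles of `x ↦ x/2, (p x + c)/2` cut into blocks of one type. -/

set_option autoImplicit false

namespace Pool.Agent.H904.CC

open Finset

/-- The parities of the terms of the trajectory of `x`: `true` at `j` if `T ^ j x` is odd. -/
def par (p c x : ℤ) (j : ℕ) : Bool := decide ((T p c)^[j] x % 2 = 1)

theorem follows_par (p c x : ℤ) (n : ℕ) : Follows p c x (par p c x) n := by
  intro j _
  simp [par]

/-- The start of the `i`-th block of length `l` of the trajectory of `x`. -/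
def st (p c : ℤ) (l : ℕ) (x : ℤ) (i : ℕ) : ℤ := (T p c)^[i * l] x

/-- The number of the odd terms in the `i`-th block of length `l` of the trajectory of `x`. -/
def odds (p c : ℤ) (l : ℕ) (x : ℤ) (i : ℕ) : ℕ := ones (par p c (st p c l x i)) l

/-- The value of the `i`-th block of length `l` of the trajectory of `x`: the sum of `2 ^ j p ^ k`
over the odd terms of the block, where `j = 0, …, l - 1` is the place of the term in the block and
`k` the number of the later odd terms of the block. -/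
def value (p c : ℤ) (l : ℕ) (x : ℤ) (i : ℕ) : ℤ := val p (par p c (st p c l x i)) l

/-- A periodic solution of `a X_{i+1} = b X_i + V_i` with `0 ≤ V_i ≤ W` is in an interval of length
`W / |a - b|`. -/
theorem spread (a b : ℤ) (ha : 0 < a) (hb : 0 < b) (d : ℕ) (hd : 0 < d) (X V : ℕ → ℤ)
    (hX : ∀ i, X (i + d) = X i) (h : ∀ i, a * X (i + 1) = b * X i + V i) (W : ℤ)
    (hV : ∀ i, 0 ≤ V i ∧ V i ≤ W) :
    (b ≤ a → ∀ i, 0 ≤ (a - b) * X i ∧ (a - b) * X i ≤ W) ∧
    (a ≤ b → ∀ i, (b - a) * X i ≤ 0 ∧ -W ≤ (b - a) * X i) := by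
  obtain ⟨i0, -, hmax⟩ := Finset.exists_max_image (range d) X ⟨0, mem_range.2 hd⟩
  obtain ⟨j0, -, hmin⟩ := Finset.exists_min_image (range d) X ⟨0, mem_range.2 hd⟩
  have hXm : ∀ i, X (i % d) = X i := by
    intro i
    have : ∀ k j, X (j + k * d) = X j := by
      intro k
      induction k with
      | zero => intro j; simp
      | succ k ih => intro j; rw [Nat.succ_mul, ← add_assoc, hX, ih]
    conv_rhs => rw [← Nat.mod_add_div' i d]
    rw [this]
  have hle : ∀ i, X i ≤ X i0 := fun i => by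
    rw [← hXm i]; exact hmax _ (mem_range.2 (Nat.mod_lt _ hd))
  have hge : ∀ i, X j0 ≤ X i := fun i => by
    rw [← hXm i]; exact hmin _ (mem_range.2 (Nat.mod_lt _ hd))
  obtain ⟨i1, hi1⟩ : ∃ j, X (j + 1) = X i0 := ⟨i0 + (d - 1), by
    rw [show i0 + (d - 1) + 1 = i0 + d by omega, hX]⟩
  obtain ⟨j1, hj1⟩ : ∃ j, X (j + 1) = X j0 := ⟨j0 + (d - 1), by
    rw [show j0 + (d - 1) + 1 = j0 + d by omega, hX]⟩
  have e1 := h i1
  have e2 := h j1
  have e3 := h i0
  have e4 := h j0
  rw [hi1] at e1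
  rw [hj1] at e2
  refine ⟨fun hab i => ?_, fun hab i => ?_⟩
  · have h1 : 0 ≤ (a - b) * X j0 := by
      have := mul_le_mul_of_nonneg_left (hge j1) hb.le
      have := (hV j1).1
      nlinarith
    have h2 : (a - b) * X i0 ≤ W := by
      have := mul_le_mul_of_nonneg_left (hle i1) hb.le
      have := (hV i1).2
      nlinarith
    have h3 := mul_le_mul_of_nonneg_left (hge i) (sub_nonneg.2 hab)
    have h4 := mul_le_mul_of_nonneg_left (hle i) (sub_nonneg.2 hab)
    exact ⟨h1.trans h3, h4.trans h2⟩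
  · have h1 : (b - a) * X i0 ≤ 0 := by
      have := mul_le_mul_of_nonneg_left (hle (i0 + 1)) ha.le
      have := (hV i0).1
      nlinarith
    have h2 : -W ≤ (b - a) * X j0 := by
      have := mul_le_mul_of_nonneg_left (hge (j0 + 1)) ha.le
      have := (hV j0).2
      nlinarith
    have h3 := mul_le_mul_of_nonneg_left (hge i) (sub_nonneg.2 hab)
    have h4 := mul_le_mul_of_nonneg_left (hle i) (sub_nonneg.2 hab)
    exact ⟨h4.trans h1, h2.trans h3⟩

section per

variable {p c : ℤ} {l d : ℕ} {x : ℤ}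

theorem st_add (i j : ℕ) : st p c l x (i + j) = (T p c)^[i * l] (st p c l x j) := by
  unfold st
  rw [add_mul, Function.iterate_add_apply]

theorem st_per (hx : (T p c)^[d * l] x = x) (i : ℕ) : st p c l x (i + d) = st p c l x i := by
  rw [st_add]
  unfold st
  rw [hx]

theorem st_mod (hx : (T p c)^[d * l] x = x) (i : ℕ) : st p c l x (i % d) = st p c l x i := by
  have : ∀ k j, st p c l x (j + k * d) = st p c l x j := by
    intro k
    induction k with
    | zero => intro j; simp
    | succ k ih => intro j; rw [Nat.succ_mul, ← add_assoc, st_per hx, ih]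
  conv_rhs => rw [← Nat.mod_add_div' i d]
  rw [this]

theorem st_step (hp : Odd p) (hc : Odd c) (i : ℕ) :
    2 ^ l * st p c l x (i + 1) = p ^ odds p c l x i * st p c l x i + c * value p c l x i := by
  have h1 := follows_eq p c hp hc (st p c l x i) (par p c (st p c l x i)) l (follows_par p c _ l)
  rw [add_comm i 1, st_add, one_mul]
  exact h1

end per

/-- In a cycle of the `3x+1` map cut into blocks of one type the blocks with the same value start at
the same integer. -/
theorem ne_blocks (l m d : ℕ) (hl : 0 < l) (hd : 0 < d) (x : ℤ) (hx : (T 3 1)^[d * l] x = x)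
    (hm : ∀ i < d, odds 3 1 l x i = m) (i j : ℕ) (hij : value 3 1 l x i = value 3 1 l x j) :
    st 3 1 l x i = st 3 1 l x j := by
  have hm' : ∀ i, odds 3 1 l x i = m := by
    intro i
    have := hm (i % d) (Nat.mod_lt _ hd)
    unfold odds at this ⊢
    rwa [st_mod hx] at this
  have hstep : ∀ i, (2 : ℤ) ^ l * st 3 1 l x (i + 1) = 3 ^ m * st 3 1 l x i + value 3 1 l x i := by
    intro i
    have := st_step (p := 3) (c := 1) (l := l) (x := x) (by decide) (by decide) i
    rw [hm' i, one_mul] at this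
    exact this
  have hval : ∀ i, 0 ≤ value 3 1 l x i ∧
      2 ^ m * value 3 1 l x i ≤ 2 ^ l * (3 ^ m - 2 ^ m) := by
    intro i
    have h1 := val_bounds 3 le_rfl (par 3 1 (st 3 1 l x i)) l
    have h2 := hm' i
    unfold odds at h2
    rw [h2] at h1
    refine ⟨h1.1, ?_⟩
    have := h1.2
    norm_num at this
    exact this
  have hvper : ∀ i, value 3 1 l x (i % d) = value 3 1 l x i := by
    intro i
    unfold value
    rw [st_mod hx]
  obtain ⟨k0, hk0, hmax⟩ := Finset.exists_max_image (range d) (value 3 1 l x) ⟨0, mem_range.2 hd⟩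
  set W := value 3 1 l x k0 with hW
  have hVW : ∀ i, 0 ≤ value 3 1 l x i ∧ value 3 1 l x i ≤ W := fun i =>
    ⟨(hval i).1, by rw [← hvper i]; exact hmax _ (mem_range.2 (Nat.mod_lt _ hd))⟩
  have h2m : (0 : ℤ) < 2 ^ m := by positivity
  have h2l : (0 : ℤ) < 2 ^ l := by positivity
  obtain ⟨s1, s2⟩ := spread (2 ^ l) (3 ^ m) (by positivity) (by positivity) d hd (st 3 1 l x)
    (value 3 1 l x) (st_per hx) hstep W hVW
  -- the difference of two starts
  have hdiff : ∀ i j, |(2 : ℤ) ^ l - 3 ^ m| * |st 3 1 l x i - st 3 1 l x j| ≤ W := by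
    intro i j
    rw [← abs_mul, mul_sub, abs_le]
    rcases le_total ((3 : ℤ) ^ m) (2 ^ l) with h | h
    · have h1 := s1 h i
      have h2 := s1 h j
      constructor <;> linarith
    · have h1 := s2 h i
      have h2 := s2 h j
      constructor <;> nlinarith
  by_cases hlm : l = 3 ∧ m = 2
  · obtain ⟨rfl, rfl⟩ := hlm
    have hW10 : W ≤ 10 := by
      have := (hval k0).2
      rw [← hW] at this
      norm_num at this
      omega
    have hr : ∀ i, -10 ≤ st 3 1 3 x i ∧ st 3 1 3 x i ≤ 0 := by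
      intro i
      have := s2 (by norm_num) i
      norm_num at this
      constructor <;> linarith
    have hodd : ∀ i, ones (par 3 1 (st 3 1 3 x i)) 3 = 2 := hm'
    have hnext : ∀ i, ones (par 3 1 ((T 3 1)^[3] (st 3 1 3 x i))) 3 = 2 := by
      intro i
      have := hodd (1 + i)
      rwa [st_add, one_mul] at this
    have hv : val 3 (par 3 1 (st 3 1 3 x i)) 3 = val 3 (par 3 1 (st 3 1 3 x j)) 3 := hij
    have fin : ∀ y ∈ Finset.Icc (-10 : ℤ) 0, ∀ z ∈ Finset.Icc (-10 : ℤ) 0,
        ones (par 3 1 y) 3 = 2 → ones (par 3 1 ((T 3 1)^[3] y)) 3 = 2 →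
        ones (par 3 1 z) 3 = 2 → ones (par 3 1 ((T 3 1)^[3] z)) 3 = 2 →
        val 3 (par 3 1 y) 3 = val 3 (par 3 1 z) 3 → y = z := by decide +kernel
    exact fin _ (Finset.mem_Icc.2 (hr i)) _ (Finset.mem_Icc.2 (hr j)) (hodd i) (hnext i) (hodd j)
      (hnext j) hv
  · have hgap := gap l m hl hlm
    have hWb : 2 ^ m * W ≤ 2 ^ l * (3 ^ m - 2 ^ m) := (hval k0).2
    have hab : (0 : ℤ) < |(2 : ℤ) ^ l - 3 ^ m| := by
      rcases (abs_nonneg ((2 : ℤ) ^ l - 3 ^ m)).eq_or_lt with h | h
      · rw [← h, mul_zero] at hgap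
        have : (2 : ℤ) ^ m ≤ 3 ^ m := pow_le_pow_left₀ (by norm_num) (by norm_num) _
        linarith
      · exact h
    have hlt : |st 3 1 l x i - st 3 1 l x j| < 2 ^ l := by
      have h1 := mul_le_mul_of_nonneg_left (hdiff i j) h2m.le
      have h2 : 2 ^ l * ((3 : ℤ) ^ m - 2 ^ m) < 2 ^ l * (2 ^ m * |(2 : ℤ) ^ l - 3 ^ m|) :=
        mul_lt_mul_of_pos_left hgap h2l
      have h3 : (2 ^ m * |(2 : ℤ) ^ l - 3 ^ m|) * |st 3 1 l x i - st 3 1 l x j| <
          (2 ^ m * |(2 : ℤ) ^ l - 3 ^ m|) * 2 ^ l := by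
        calc (2 ^ m * |(2 : ℤ) ^ l - 3 ^ m|) * |st 3 1 l x i - st 3 1 l x j|
            = 2 ^ m * (|(2 : ℤ) ^ l - 3 ^ m| * |st 3 1 l x i - st 3 1 l x j|) := by ring
          _ ≤ 2 ^ m * W := h1
          _ ≤ 2 ^ l * (3 ^ m - 2 ^ m) := hWb
          _ < 2 ^ l * (2 ^ m * |(2 : ℤ) ^ l - 3 ^ m|) := h2
          _ = _ := by ring
      exact lt_of_mul_lt_mul_left h3 (mul_pos h2m hab).le
    have hdvd : (2 : ℤ) ^ l ∣ st 3 1 l x i - st 3 1 l x j := by
      have h1 := hstep i
      have h2 := hstep j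
      have h3 : (2 : ℤ) ^ l ∣ 3 ^ m * (st 3 1 l x i - st 3 1 l x j) :=
        ⟨st 3 1 l x (i + 1) - st 3 1 l x (j + 1), by rw [hij] at h1; linear_combination h2 - h1⟩
      refine (IsCoprime.dvd_of_dvd_mul_left ?_ h3)
      exact IsCoprime.pow (by decide)
    have := Int.eq_zero_of_abs_lt_dvd hdvd hlt
    linarith

/-- The least number of blocks. -/
theorem least_blocks (p c : ℤ) (l d : ℕ) (hd : 0 < d) (x : ℤ)
    (hx : (T p c)^[d * l] x = x) :
    ∃ D, 0 < D ∧ D ≤ d ∧ (T p c)^[D * l] x = x ∧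
      ∀ i < D, ∀ j < D, st p c l x i = st p c l x j → i = j := by
  classical
  have hex : ∃ D, 0 < D ∧ (T p c)^[D * l] x = x := ⟨d, hd, hx⟩
  obtain ⟨h1, h2⟩ := Nat.find_spec hex
  set D := Nat.find hex with hD
  refine ⟨D, h1, Nat.find_min' hex ⟨hd, hx⟩, h2, ?_⟩
  have key : ∀ i < D, ∀ j < D, i < j → st p c l x i ≠ st p c l x j := by
    intro i hi j hj hlt heq
    have h3 : st p c l x (D - j + j) = st p c l x (D - j + i) := by
      rw [st_add, st_add, heq]
    have h4 : st p c l x (D - j + j) = x := by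
      rw [show D - j + j = D by omega]; exact h2
    rw [h4] at h3
    exact Nat.find_min hex (m := D - j + i) (by omega) ⟨by omega, h3.symm⟩
  intro i hi j hj heq
  rcases lt_trichotomy i j with h | h | h
  · exact absurd heq (key i hi j hj h)
  · exact h
  · exact absurd heq.symm (key j hj i hi h)

theorem general (p c : ℤ) (hp : Odd p) (hp3 : 3 ≤ p) (hc : Odd c) (l m d : ℕ) (hl : 0 < l)
    (hd : 0 < d) (x : ℤ) (hx : (T p c)^[d * l] x = x) (hm : ∀ i < d, odds p c l x i = m)
    (g Q : ℤ) (hg : 0 < g) (hgw : ∀ i < d, ∀ j < d, g ∣ value p c l x i - value p c l x j)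
    (hQ : ∀ i < d, ∀ j < d, value p c l x i - value p c l x j ≤ g * Q)
    (hcond : |c| * Q * d ^ 2 < (p - 2) * 2 ^ (m + 3)) :
    (T p c)^[2 * l] x = x :=
  blocks p c hp hp3 hc l m d hl hd x hx (fun i => par p c (st p c l x i))
    (fun i _ => follows_par p c _ l) hm g hg hgw Q hQ hcond

/-- The period is one block if the values are close to each other. -/
theorem one_block (p c : ℤ) (hp : Odd p) (hp3 : 3 ≤ p) (hc : Odd c) (l m : ℕ) (x : ℤ)
    (hx : (T p c)^[2 * l] x = x) (hm0 : odds p c l x 0 = m) (hm1 : odds p c l x 1 = m)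
    (hH : |c * (value p c l x 0 - value p c l x 1)| < 2 ^ l + p ^ m) :
    (T p c)^[l] x = x := by
  have h0 := st_step (p := p) (c := c) (l := l) (x := x) hp hc 0
  have h1 := st_step (p := p) (c := c) (l := l) (x := x) hp hc 1
  have h2 : st p c l x (1 + 1) = st p c l x 0 := by
    unfold st; rw [show 1 + 1 = 2 by rfl, hx]; simp
  rw [h2, hm1] at h1
  rw [hm0, zero_add] at h0
  have h3 : (2 ^ l + p ^ m) * (st p c l x 1 - st p c l x 0) =
      c * (value p c l x 0 - value p c l x 1) := by linear_combination h0 - h1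
  have h4 : (0 : ℤ) < 2 ^ l + p ^ m := by positivity
  rw [← h3, abs_mul, abs_of_pos h4] at hH
  have h5 : |st p c l x 1 - st p c l x 0| < 1 := by
    by_contra hcon
    push Not at hcon
    nlinarith
  have h6 : st p c l x 1 = st p c l x 0 := by
    have := Int.abs_lt_one_iff.1 h5
    linarith
  unfold st at h6
  simpa using h6

theorem main31 (l m d : ℕ) (hl : 0 < l) (hd : 0 < d) (x : ℤ) (hx : (T 3 1)^[d * l] x = x)
    (hm : ∀ i < d, odds 3 1 l x i = m) (g Q : ℤ) (hg : 0 < g)
    (hgw : ∀ i < d, ∀ j < d, g ∣ value 3 1 l x i - value 3 1 l x j)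
    (hQ : ∀ i < d, ∀ j < d, value 3 1 l x i - value 3 1 l x j ≤ g * Q)
    (hcond : Q * (((range d).image (value 3 1 l x)).card : ℤ) ^ 2 < 2 ^ (m + 3)) :
    (T 3 1)^[2 * l] x = x := by
  obtain ⟨D, hD0, hDd, hDx, hinj⟩ := least_blocks 3 1 l d hd x hx
  have hcard : D ≤ ((range d).image (value 3 1 l x)).card := by
    calc D = (range D).card := (card_range D).symm
      _ = ((range D).image (value 3 1 l x)).card := by
          rw [card_image_of_injOn]
          intro i hi j hj hij
          exact hinj i (by simpa using hi) j (by simpa using hj)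
            (ne_blocks l m d hl hd x hx hm i j hij)
      _ ≤ _ := card_le_card (image_subset_image (range_subset_range.2 hDd))
  have hQ0 : 0 ≤ Q := by
    have := hQ 0 hd 0 hd
    rw [sub_self] at this
    by_contra hcon
    push Not at hcon
    nlinarith
  refine general 3 1 (by decide) le_rfl (by decide) l m D hl hD0 x hDx
    (fun i hi => hm i (hi.trans_le hDd)) g Q hg
    (fun i hi j hj => hgw i (hi.trans_le hDd) j (hj.trans_le hDd))
    (fun i hi j hj => hQ i (hi.trans_le hDd) j (hj.trans_le hDd)) ?_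
  have h1 : ((D : ℤ)) ≤ (((range d).image (value 3 1 l x)).card : ℤ) := by exact_mod_cast hcard
  have h2 : ((D : ℤ)) ^ 2 ≤ (((range d).image (value 3 1 l x)).card : ℤ) ^ 2 :=
    pow_le_pow_left₀ (by positivity) h1 2
  have h3 := mul_le_mul_of_nonneg_left h2 hQ0
  norm_num
  linarith

end Pool.Agent.H904.CC
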